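import Pool.Agent.Helper92.CorsonCpU

set_option autoImplicit false

open Set Topology

namespace Pool.Agent.Results.MP_5e5cb0_gt.SigmaCompactFactor

universe u

/-- The `Σ`-product of real lines with index set `κ`; its topology is the one inherited from the
product `κ → ℝ`. -/
def SigmaProduct (κ : Type u) : Set (κ → ℝ) := {x | {α | x α ≠ 0}.Countable}

/-- Corson compact spaces: compact spaces homeomorphic to a subspace of a `Σ`-product. -/
def CorsonCompact (L : Type u) [TopologicalSpace L] : Prop :=
  CompactSpace L ∧ ∃ (κ : Type u) (S : Set (SigmaProduct κ)), Nonempty (L ≃ₜ S)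

/-- The continuous real functions on `Y`. As a subspace of the product `Y → ℝ` this is
`C_p(Y)`. -/
def Cp (Y : Type u) [TopologicalSpace Y] : Set (Y → ℝ) := {f | Continuous f}

/-- Every compact subspace of `C_p(Y)` is Corson compact. -/
def CompactaCorson (Y : Type u) [TopologicalSpace Y] : Prop :=
  ∀ L : Set (Cp Y), IsCompact L → CorsonCompact L

/-- The slice `f(·, k)` of a continuous function `f` on `X × K`. -/
def slice {X K : Type u} [TopologicalSpace X] [TopologicalSpace K] (k : K) (f : Cp (X × K)) :
    Cp X :=
  ⟨fun x => f.1 (x, k), f.2.comp (continuous_id.prodMk continuous_const)⟩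

theorem continuous_slice {X K : Type u} [TopologicalSpace X] [TopologicalSpace K] (k : K) :
    Continuous (slice (X := X) k) :=
  Continuous.subtype_mk (f := fun (f : Cp (X × K)) (x : X) => f.1 (x, k))
    (continuous_pi fun x => (continuous_apply (x, k)).comp continuous_subtype_val) _

/-- Corson compactness in terms of an embedding with countable supports. -/
theorem exists_embedding {L : Type u} [TopologicalSpace L] (h : CorsonCompact L) :
    ∃ (Γ : Type u) (e : L → (Γ → ℝ)), IsEmbedding e ∧
      ∀ s, (Function.support (e s)).Countable := by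
  obtain ⟨-, κ, S, ⟨φ⟩⟩ := h
  refine ⟨κ, fun l => ((φ l : S) : SigmaProduct κ), ?_, fun s => (φ s).1.2⟩
  exact (IsEmbedding.subtypeVal.comp (IsEmbedding.subtypeVal.comp φ.isEmbedding))

theorem corson_of_embedding {L : Type u} [TopologicalSpace L] [CompactSpace L] {Γ : Type u}
    (e : L → (Γ → ℝ)) (he : IsEmbedding e) (hs : ∀ s, (Function.support (e s)).Countable) :
    CorsonCompact L := by
  refine ⟨inferInstance, Γ, range (fun l => (⟨e l, hs l⟩ : SigmaProduct Γ)), ⟨?_⟩⟩
  have h : IsEmbedding (fun l => (⟨e l, hs l⟩ : SigmaProduct Γ)) := he.codRestrict (SigmaProduct Γ) hs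
  exact h.toHomeomorph

theorem corson_of_injective {L : Type u} [TopologicalSpace L] [CompactSpace L] {Γ : Type u}
    (e : L → (Γ → ℝ)) (he : Continuous e) (hi : Function.Injective e)
    (hs : ∀ s, (Function.support (e s)).Countable) : CorsonCompact L :=
  corson_of_embedding e (he.isClosedEmbedding hi).isEmbedding hs

theorem corsonCpU {X : Type u} [TopologicalSpace X] (hX : CompactaCorson X) :
    Pool.Agent.Helper92.Corson.CorsonCpU X := by
  intro S hS hSK
  let L : Set (Cp X) := Subtype.val ⁻¹' S
  have hL : IsCompact L := by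
    rw [IsEmbedding.subtypeVal.isCompact_iff]
    have : Subtype.val '' L = S := by
      ext f
      constructor
      · rintro ⟨g, hg, rfl⟩
        exact hg
      · intro hf
        exact ⟨⟨f, hS f hf⟩, hf, rfl⟩
    rwa [this]
  obtain ⟨Γ, e, he, hs⟩ := exists_embedding (hX L hL)
  let j : S → L := fun f => ⟨⟨f.1, hS f.1 f.2⟩, f.2⟩
  have hj : IsEmbedding j := by
    refine IsEmbedding.of_comp ?_ (g := fun l : L => ((l : Cp X) : X → ℝ)) ?_ ?_
    · exact (continuous_subtype_val.subtype_mk _).subtype_mk _
    · exact continuous_subtype_val.comp continuous_subtype_val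
    · exact IsEmbedding.subtypeVal
  exact ⟨Γ, e ∘ j, he.comp hj, fun s => hs _⟩

/-- The local form. -/
theorem local_form (X K : Type u) [TopologicalSpace X] [TopologicalSpace K] [CompactSpace K]
    (hsr : ∀ (Y : Type u) [MetricSpace Y] (g : X → Y), Continuous g →
      TopologicalSpace.IsSeparable (range g))
    (L : Set (Cp (X × K))) (hL : IsCompact L) (hsl : ∀ k : K, CorsonCompact (slice k '' L)) :
    CorsonCompact L := by
  have hcs : CompactSpace L := isCompact_iff_compactSpace.1 hL
  let L₀ : Set (X × K → ℝ) := Subtype.val '' L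
  have hL₀ : IsCompact L₀ := hL.image continuous_subtype_val
  have hL₀c : ∀ f ∈ L₀, Continuous f := by
    rintro _ ⟨f, -, rfl⟩
    exact f.2
  obtain ⟨Γ, e, he, hs⟩ := Pool.Agent.Helper92.Corson.main_local L₀ hL₀c hL₀ (by
    intro k
    obtain ⟨Γ, e, he, hs⟩ := exists_embedding (hsl k)
    let R : Set (X → ℝ) := range (fun (l : L₀) (x : X) => l.1 (x, k))
    have hR : ∀ r : R, ∃ s : (slice k '' L : Set (Cp X)), ((s : Cp X) : X → ℝ) = r.1 := by
      rintro ⟨_, ⟨⟨_, ⟨f, hf, rfl⟩⟩, rfl⟩⟩
      exact ⟨⟨slice k f, f, hf, rfl⟩, rfl⟩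
    choose j hj using hR
    have hjc : Continuous j := by
      have h1 : IsEmbedding fun s : (slice k '' L : Set (Cp X)) => ((s : Cp X) : X → ℝ) :=
        IsEmbedding.subtypeVal.comp IsEmbedding.subtypeVal
      rw [h1.isInducing.continuous_iff]
      have : (fun s : (slice k '' L : Set (Cp X)) => ((s : Cp X) : X → ℝ)) ∘ j =
          Subtype.val := by
        funext r
        exact hj r
      rw [this]
      exact continuous_subtype_val
    have hje : IsEmbedding j := by
      refine IsEmbedding.of_comp hjc
        (g := fun s : (slice k '' L : Set (Cp X)) => ((s : Cp X) : X → ℝ)) ?_ ?_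
      · exact continuous_subtype_val.comp continuous_subtype_val
      · have : (fun s : (slice k '' L : Set (Cp X)) => ((s : Cp X) : X → ℝ)) ∘ j =
            Subtype.val := by
          funext r
          exact hj r
        rw [this]
        exact IsEmbedding.subtypeVal
    exact ⟨Γ, e ∘ j, he.comp hje, fun s => hs _⟩) (fun n hn => hsr _ n hn)
  let j : L → L₀ := fun l => ⟨((l : Cp (X × K)) : X × K → ℝ), ⟨l.1, l.2, rfl⟩⟩
  have hj : Continuous j := (continuous_subtype_val.comp continuous_subtype_val).subtype_mk _
  have hji : Function.Injective j := by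
    intro l l' h
    have h1 := Subtype.ext_iff.1 h
    exact Subtype.ext (Subtype.ext h1)
  exact corson_of_injective (e ∘ j) (he.continuous.comp hj) (he.injective.comp hji)
    (fun s => hs _)

/-- The product with a compact space. -/
theorem compact_factor (X K : Type u) [TopologicalSpace X] [TopologicalSpace K] [CompactSpace K]
    (hX : CompactaCorson X) : CompactaCorson (X × K) := fun L hL =>
  local_form X K (fun _ _ g hg =>
    Pool.Agent.Helper92.Corson.isSeparable_rangeU (corsonCpU hX) g hg) L hL
    (fun k => hX _ (hL.image (continuous_slice k)))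

/-- The general form. -/
theorem general_form (X K : ℕ → Type u) [∀ n, TopologicalSpace (X n)]
    [∀ n, TopologicalSpace (K n)] [∀ n, CompactSpace (K n)] (hX : ∀ n, CompactaCorson (X n))
    (Z : Type u) [TopologicalSpace Z] (q : ∀ n, X n × K n → Z) (hq : ∀ n, Continuous (q n))
    (hd : Dense (⋃ n, range (q n))) : CompactaCorson Z := by
  intro L hL
  have hcs : CompactSpace L := isCompact_iff_compactSpace.1 hL
  let p : ∀ n, Cp Z → Cp (X n × K n) := fun n f => ⟨fun z => f.1 (q n z), f.2.comp (hq n)⟩
  have hp : ∀ n, Continuous (p n) := fun n =>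
    Continuous.subtype_mk (f := fun (f : Cp Z) (z : X n × K n) => f.1 (q n z))
      (continuous_pi fun z => (continuous_apply (q n z)).comp continuous_subtype_val) _
  choose Γ e he hs using fun n => exists_embedding
    (compact_factor (X n) (K n) (hX n) (p n '' L) (hL.image (hp n)))
  let j : ∀ n, L → (p n '' L : Set (Cp (X n × K n))) := fun n l => ⟨p n l.1, l.1, l.2, rfl⟩
  have hj : ∀ n, Continuous (j n) := fun n =>
    ((hp n).comp continuous_subtype_val).subtype_mk _
  refine corson_of_injective (Γ := Σ n, Γ n)
    (fun l g => e g.1 (j g.1 l) g.2) ?_ ?_ ?_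
  · exact continuous_pi fun g => (continuous_apply g.2).comp
      ((he g.1).continuous.comp (hj g.1))
  · intro l l' h
    have h1 : ∀ n, e n (j n l) = e n (j n l') := fun n => funext fun g =>
      congrFun h ⟨n, g⟩
    have h2 : ∀ n z, l.1.1 (q n z) = l'.1.1 (q n z) := fun n z =>
      congrFun (Subtype.ext_iff.1 (Subtype.ext_iff.1 ((he n).injective (h1 n)))) z
    have h3 : l.1.1 = l'.1.1 := by
      refine Continuous.ext_on hd l.1.2 l'.1.2 ?_
      intro z hz
      obtain ⟨n, w, rfl⟩ := mem_iUnion.1 hz
      exact h2 n w
    exact Subtype.ext (Subtype.ext h3)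
  · intro l
    have : Function.support (fun g : Σ n, Γ n => e g.1 (j g.1 l) g.2) ⊆
        ⋃ n, (fun γ => (⟨n, γ⟩ : Σ n, Γ n)) '' Function.support (e n (j n l)) := by
      rintro ⟨n, γ⟩ h
      exact mem_iUnion.2 ⟨n, γ, h, rfl⟩
    exact (countable_iUnion fun n => (hs n _).image _).mono this

/-- **Arhangel'skii's question.** If every compact subspace of `C_p(X)` is Corson compact, then
for every `σ`-compact space `K` (in particular for every compact space `K`) every compact subspace
of `C_p(X × K)` is Corson compact. No separation axiom is assumed. -/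
theorem result (X : Type u) [TopologicalSpace X] (hX : CompactaCorson X)
    (K : Type u) [TopologicalSpace K] [SigmaCompactSpace K] : CompactaCorson (X × K) := by
  have h : ∀ n, CompactSpace (compactCovering K n) := fun n =>
    isCompact_iff_compactSpace.1 (isCompact_compactCovering K n)
  refine general_form (fun _ => X) (fun n => compactCovering K n) (fun _ => hX) (X × K)
    (fun n z => (z.1, z.2.1)) (fun n => continuous_fst.prodMk
      (continuous_subtype_val.comp continuous_snd)) ?_
  have huniv : (⋃ n, range fun z : X × compactCovering K n => ((z.1, z.2.1) : X × K)) = univ := by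
    refine eq_univ_of_forall fun z => ?_
    obtain ⟨n, hn⟩ := mem_iUnion.1 ((iUnion_compactCovering K).symm ▸ mem_univ z.2 :
      z.2 ∈ ⋃ n, compactCovering K n)
    exact mem_iUnion.2 ⟨n, (z.1, ⟨z.2, hn⟩), rfl⟩
  rw [huniv]
  exact dense_univ

end Pool.Agent.Results.MP_5e5cb0_gt.SigmaCompactFactor
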